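import Pool.Agent.H30.GU.Jac

/-!
# The divergence theorem for the degree field
-/

namespace Pool.Agent.H30.GU

open MvPolynomial Matrix MeasureTheory

variable {n : ℕ}

/-- The differential of a polynomial function. -/
noncomputable def dpoly (p : MvPolynomial (Fin n) ℝ) (x : Fin n → ℝ) : (Fin n → ℝ) →L[ℝ] ℝ :=
  ∑ i, (eval x (pderiv i p)) • (ContinuousLinearMap.proj i : (Fin n → ℝ) →L[ℝ] ℝ)

theorem dpoly_apply (p : MvPolynomial (Fin n) ℝ) (x w : Fin n → ℝ) :
    dpoly p x w = ∑ i, eval x (pderiv i p) * w i := by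
  simp [dpoly]

theorem dpoly_single (p : MvPolynomial (Fin n) ℝ) (x : Fin n → ℝ) (i : Fin n) :
    dpoly p x (Pi.single i 1) = eval x (pderiv i p) := by
  rw [dpoly_apply, Finset.sum_eq_single i]
  · simp
  · intro j _ hj
    simp [hj]
  · intro h
    exact absurd (Finset.mem_univ i) h

theorem hasFDerivAt_eval (p : MvPolynomial (Fin n) ℝ) (x : Fin n → ℝ) :
    HasFDerivAt (fun y => eval y p) (dpoly p x) x := by
  induction p using MvPolynomial.induction_on with
  | C a =>
    have h : dpoly (C a) x = 0 := by
      ext w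
      simp [dpoly_apply]
    rw [h]
    simp only [eval_C]
    exact hasFDerivAt_const _ _
  | add p q hp hq =>
    have h : dpoly (p + q) x = dpoly p x + dpoly q x := by
      ext w
      simp [dpoly_apply, add_mul, Finset.sum_add_distrib]
    rw [h]
    simp only [map_add]
    exact hp.add hq
  | mul_X p j hp =>
    have h1 : HasFDerivAt (fun y : Fin n → ℝ => y j)
        (ContinuousLinearMap.proj j : (Fin n → ℝ) →L[ℝ] ℝ) x :=
      (ContinuousLinearMap.proj j : (Fin n → ℝ) →L[ℝ] ℝ).hasFDerivAt
    have h2 := hp.mul h1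
    have h : dpoly (p * X j) x = eval x p • (ContinuousLinearMap.proj j : (Fin n → ℝ) →L[ℝ] ℝ)
        + x j • dpoly p x := by
      ext w
      simp only [dpoly_apply, Derivation.leibniz, map_add, smul_eq_mul, map_mul, eval_X,
        _root_.add_apply, _root_.smul_apply, add_mul,
        Finset.sum_add_distrib, pderiv_X, ContinuousLinearMap.proj_apply]
      congr 1
      · rw [Finset.sum_eq_single j]
        · simp
        · intro i _ hi
          simp [Ne.symm hi]
        · intro h
          exact absurd (Finset.mem_univ j) h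
      · rw [Finset.mul_sum]
        refine Finset.sum_congr rfl fun i _ => ?_
        ring
    rw [h]
    simp only [map_mul, eval_X]
    exact h2

/-- The degree field of `F`. -/
noncomputable def W (F : Fin n → MvPolynomial (Fin n) ℝ) (i : Fin n) (x : Fin n → ℝ) : ℝ :=
  eval x (N F i) * (eval x (D F)) ^ (-(n : ℝ) / 2)

/-- The differential of the degree field. -/
noncomputable def W' (F : Fin n → MvPolynomial (Fin n) ℝ) (i : Fin n) (x : Fin n → ℝ) :
    (Fin n → ℝ) →L[ℝ] ℝ :=
  eval x (N F i) • ((-(n : ℝ) / 2 * (eval x (D F)) ^ (-(n : ℝ) / 2 - 1)) • dpoly (D F) x) +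
    ((eval x (D F)) ^ (-(n : ℝ) / 2)) • dpoly (N F i) x

theorem hasFDerivAt_W (F : Fin n → MvPolynomial (Fin n) ℝ) (i : Fin n) (x : Fin n → ℝ)
    (hx : 0 < eval x (D F)) : HasFDerivAt (W F i) (W' F i x) x := by
  have h1 := hasFDerivAt_eval (D F) x
  have h2 := hasFDerivAt_eval (N F i) x
  have h3 := (Real.hasDerivAt_rpow_const (p := -(n : ℝ) / 2) (Or.inl hx.ne')).comp_hasFDerivAt x h1
  exact h2.mul h3

theorem div_W (F : Fin n → MvPolynomial (Fin n) ℝ) (x : Fin n → ℝ)
    (hx : 0 < eval x (D F)) : ∑ i, W' F i x (Pi.single i 1) = 0 := by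
  have h1 := congrArg (eval x) (div_N F)
  have h2 := congrArg (eval x) (N_grad F)
  simp only [map_sum, map_mul, map_natCast] at h1 h2
  have h3 : ∀ i, W' F i x (Pi.single i 1) =
      (-(n : ℝ) / 2 * (eval x (D F)) ^ (-(n : ℝ) / 2 - 1)) *
        (eval x (N F i) * eval x (pderiv i (D F))) +
      (eval x (D F)) ^ (-(n : ℝ) / 2) * eval x (pderiv i (N F i)) := by
    intro i
    simp only [W', _root_.add_apply, _root_.smul_apply, dpoly_single,
      smul_eq_mul]
    ring
  simp only [h3, Finset.sum_add_distrib, ← Finset.mul_sum, h1, h2]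
  rw [Real.rpow_sub_one hx.ne']
  have h4 : eval x (2 : MvPolynomial (Fin n) ℝ) = 2 := by simp
  rw [h4]
  field_simp
  ring

theorem continuousOn_W (F : Fin n → MvPolynomial (Fin n) ℝ) (hF : ∀ x, 0 < eval x (D F))
    (i : Fin n) (s : Set (Fin n → ℝ)) : ContinuousOn (W F i) s :=
  fun x _ => (hasFDerivAt_W F i x (hF x)).continuousAt.continuousWithinAt

/-- Tangential derivatives agree on a hyperplane where the polynomials agree. -/
theorem pderiv_agree {p q : MvPolynomial (Fin n) ℝ} {i : Fin n} {c : ℝ}
    (h : ∀ x : Fin n → ℝ, x i = c → eval x p = eval x q) {j : Fin n} (hj : j ≠ i)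
    (x : Fin n → ℝ) (hx : x i = c) : eval x (pderiv j p) = eval x (pderiv j q) := by
  have key : ∀ r : MvPolynomial (Fin n) ℝ,
      HasDerivAt (fun t => eval (Function.update x j t) r) (eval x (pderiv j r)) (x j) := by
    intro r
    have h1 := hasDerivAt_update x j (x j)
    have h2 := hasFDerivAt_eval r (Function.update x j (x j))
    have h3 := h2.comp_hasDerivAt (x j) h1
    rw [dpoly_single, Function.update_eq_self] at h3
    exact h3
  have h4 : (fun t => eval (Function.update x j t) p) = fun t => eval (Function.update x j t) q := by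
    funext t
    apply h
    rw [Function.update_of_ne (Ne.symm hj), hx]
  have h5 := key p
  rw [h4] at h5
  exact h5.unique (key q)

theorem eval_N (F : Fin n → MvPolynomial (Fin n) ℝ) (i : Fin n) (x : Fin n → ℝ) :
    eval x (N F i) = (Matrix.of fun l j => if j = i then eval x (F l)
      else eval x (pderiv j (F l))).det := by
  unfold N
  rw [RingHom.map_det]
  congr 1
  ext l j
  simp only [RingHom.mapMatrix_apply, Matrix.map_apply, Matrix.of_apply, Matrix.updateCol_apply,
    jac]
  split_ifs <;> rfl

theorem eval_D (F : Fin n → MvPolynomial (Fin n) ℝ) (x : Fin n → ℝ) :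
    eval x (D F) = ∑ l, (eval x (F l)) ^ 2 := by
  simp [D]

theorem W_agree {F G : Fin n → MvPolynomial (Fin n) ℝ} {i : Fin n} {c : ℝ}
    (h : ∀ x : Fin n → ℝ, x i = c → ∀ l, eval x (F l) = eval x (G l))
    (x : Fin n → ℝ) (hx : x i = c) : W F i x = W G i x := by
  unfold W
  have h1 : eval x (N F i) = eval x (N G i) := by
    rw [eval_N, eval_N]
    congr 1
    ext l j
    simp only [Matrix.of_apply]
    split_ifs with hj
    · exact h x hx l
    · exact pderiv_agree (fun y hy => h y hy l) hj x hx
  have h2 : eval x (D F) = eval x (D G) := by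
    rw [eval_D, eval_D]
    exact Finset.sum_congr rfl fun l _ => by rw [h x hx l]
  rw [h1, h2]

/-- **Homotopy invariance of the degree integral**, relative to the lateral faces: if `F` and `G`
are nowhere zero and agree on all the faces of the box but the front face in direction `0`, then
their degree integrals over that face are equal. -/
theorem core {k : ℕ} (a b : Fin (k + 1) → ℝ) (hab : a ≤ b)
    (F G : Fin (k + 1) → MvPolynomial (Fin (k + 1)) ℝ)
    (hF : ∀ x, 0 < eval x (D F)) (hG : ∀ x, 0 < eval x (D G))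
    (ha : ∀ i, ∀ x : Fin (k + 1) → ℝ, x i = a i → ∀ l, eval x (F l) = eval x (G l))
    (hb : ∀ i, i ≠ 0 → ∀ x : Fin (k + 1) → ℝ, x i = b i → ∀ l, eval x (F l) = eval x (G l)) :
    ∫ x in Set.Icc (a ∘ Fin.succAbove 0) (b ∘ Fin.succAbove 0),
      (W F 0 (Fin.insertNth 0 (b 0) x) - W G 0 (Fin.insertNth 0 (b 0) x)) = 0 := by
  have h := integral_divergence_of_hasFDerivAt_off_countable' a b hab
    (fun i x => W F i x - W G i x) (fun i x => W' F i x - W' G i x) ∅ Set.countable_empty
    (fun i => (continuousOn_W F hF i _).sub (continuousOn_W G hG i _))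
    (fun x _ i => (hasFDerivAt_W F i x (hF x)).sub (hasFDerivAt_W G i x (hG x)))
    (by
      have : (fun x : Fin (k + 1) → ℝ => ∑ i, (W' F i x - W' G i x) (Pi.single i 1)) =
          fun _ => 0 := by
        funext x
        simp only [_root_.sub_apply, Finset.sum_sub_distrib, div_W F x (hF x), div_W G x (hG x),
          sub_zero]
      rw [this]
      exact integrableOn_zero)
  have h1 : (fun x : Fin (k + 1) → ℝ => ∑ i, (W' F i x - W' G i x) (Pi.single i 1)) =
      fun _ => 0 := by
    funext x
    simp only [_root_.sub_apply, Finset.sum_sub_distrib, div_W F x (hF x), div_W G x (hG x),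
      sub_zero]
  rw [h1, integral_zero] at h
  have hback : ∀ i : Fin (k + 1), ∫ x in Set.Icc (a ∘ Fin.succAbove i) (b ∘ Fin.succAbove i),
      (W F i (Fin.insertNth i (a i) x) - W G i (Fin.insertNth i (a i) x)) = 0 := by
    intro i
    have : (fun x : Fin k → ℝ =>
        W F i (Fin.insertNth i (a i) x) - W G i (Fin.insertNth i (a i) x)) = fun _ => 0 := by
      funext x
      rw [W_agree (ha i) _ (by simp), sub_self]
    rw [this, integral_zero]
  have hfront : ∀ i : Fin (k + 1), i ≠ 0 →
      ∫ x in Set.Icc (a ∘ Fin.succAbove i) (b ∘ Fin.succAbove i),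
      (W F i (Fin.insertNth i (b i) x) - W G i (Fin.insertNth i (b i) x)) = 0 := by
    intro i hi
    have : (fun x : Fin k → ℝ =>
        W F i (Fin.insertNth i (b i) x) - W G i (Fin.insertNth i (b i) x)) = fun _ => 0 := by
      funext x
      rw [W_agree (hb i hi) _ (by simp), sub_self]
    rw [this, integral_zero]
  simp only [hback, sub_zero] at h
  rw [Finset.sum_eq_single 0] at h
  · exact h.symm
  · intro i _ hi
    exact hfront i hi
  · intro h0
    exact absurd (Finset.mem_univ 0) h0

end Pool.Agent.H30.GU
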