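import Mathlib

/-!
# Elementary matrices and elementary homotopies
-/

namespace Pool.Agent.H30.GU

open Matrix Polynomial

/-- The elementary subgroup `E_n(A)` of `GL_n(A)`: the subgroup generated by the elementary
matrices `1 + c e_{ij}`, `i ≠ j`. -/
def elemGroup (n : ℕ) (A : Type*) [CommRing A] : Subgroup (GL (Fin n) A) :=
  Subgroup.closure {g | ∃ i j : Fin n, i ≠ j ∧ ∃ c : A,
    (g : Matrix (Fin n) (Fin n) A) = Matrix.transvection i j c}

/-- `Um_n(A)`: unimodular rows of length `n`. -/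
def unimodRows (n : ℕ) (A : Type*) [CommRing A] : Set (Fin n → A) :=
  {a | ∃ b : Fin n → A, ∑ i, a i * b i = 1}

/-- The row `e_1 = (1, 0, …, 0)`. -/
def rowE1 (n : ℕ) (A : Type*) [CommRing A] : Fin n → A := fun i => if (i : ℕ) = 0 then 1 else 0

/-- `e_1 E_n(A)`: the set of rows `e_1 g`, `g ∈ E_n(A)`. -/
def elemRows (n : ℕ) (A : Type*) [CommRing A] : Set (Fin n → A) :=
  {a | ∃ g ∈ elemGroup n A, a = rowE1 n A ᵥ* (g : Matrix (Fin n) (Fin n) A)}

variable {n : ℕ} {A : Type*} [CommRing A]

/-- Every elementary matrix is connected to the identity by a polynomial path. -/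
theorem exists_path (g : GL (Fin n) A) (hg : g ∈ elemGroup n A) :
    ∃ G : GL (Fin n) A[X],
      Matrix.GeneralLinearGroup.map (Polynomial.evalRingHom (0 : A)) G = 1 ∧
      Matrix.GeneralLinearGroup.map (Polynomial.evalRingHom (1 : A)) G = g := by
  unfold elemGroup at hg
  induction hg using Subgroup.closure_induction with
  | mem g hg =>
    obtain ⟨i, j, hij, c, hg⟩ := hg
    let M : GL (Fin n) A[X] := ⟨Matrix.transvection i j (X * C c), Matrix.transvection i j (-(X * C c)),
      by rw [Matrix.transvection_mul_transvection_same _ _ hij]; simp,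
      by rw [Matrix.transvection_mul_transvection_same _ _ hij]; simp⟩
    refine ⟨M, ?_, ?_⟩
    · ext a b
      simp only [M, Matrix.GeneralLinearGroup.map_apply, Matrix.transvection, Matrix.add_apply,
        Matrix.one_apply, Matrix.single_apply, Units.val_one]
      split_ifs <;> simp
    · ext a b
      rw [hg]
      simp only [M, Matrix.GeneralLinearGroup.map_apply, Matrix.transvection, Matrix.add_apply,
        Matrix.one_apply, Matrix.single_apply]
      split_ifs <;> simp
  | one => exact ⟨1, by simp, by simp⟩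
  | mul x y _ _ hx hy =>
    obtain ⟨G, h0, h1⟩ := hx
    obtain ⟨H, h0', h1'⟩ := hy
    exact ⟨G * H, by rw [map_mul, h0, h0', one_mul], by rw [map_mul, h1, h1']⟩
  | inv x _ hx =>
    obtain ⟨G, h0, h1⟩ := hx
    exact ⟨G⁻¹, by rw [map_inv, h0, inv_one], by rw [map_inv, h1]⟩

/-- A row in `e_1 E_n(A)` is connected to `e_1` by a polynomial path of unimodular rows. -/
theorem exists_row_path (v : Fin (n + 1) → A) (hv : v ∈ elemRows (n + 1) A) :
    ∃ w b : Fin (n + 1) → A[X], ∑ i, w i * b i = 1 ∧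
      (∀ i, (w i).eval 0 = rowE1 (n + 1) A i) ∧ ∀ i, (w i).eval 1 = v i := by
  obtain ⟨g, hg, hgv⟩ := hv
  obtain ⟨G, h0, h1⟩ := exists_path g hg
  have hE : ∀ φ : A[X] →+* A, (φ ∘ rowE1 (n + 1) A[X]) = rowE1 (n + 1) A := by
    intro φ
    funext i
    simp only [Function.comp, rowE1]
    split_ifs <;> simp
  refine ⟨rowE1 (n + 1) A[X] ᵥ* (G : Matrix (Fin (n + 1)) (Fin (n + 1)) A[X]),
    ((G⁻¹ : GL (Fin (n + 1)) A[X]) : Matrix (Fin (n + 1)) (Fin (n + 1)) A[X]) *ᵥ
      rowE1 (n + 1) A[X], ?_, ?_, ?_⟩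
  · change (rowE1 (n + 1) A[X] ᵥ* (G : Matrix (Fin (n + 1)) (Fin (n + 1)) A[X])) ⬝ᵥ
      (((G⁻¹ : GL (Fin (n + 1)) A[X]) : Matrix (Fin (n + 1)) (Fin (n + 1)) A[X]) *ᵥ
      rowE1 (n + 1) A[X]) = 1
    rw [Matrix.dotProduct_mulVec, Matrix.vecMul_vecMul, ← Units.val_mul, mul_inv_cancel,
      Units.val_one, Matrix.vecMul_one]
    simp only [dotProduct, rowE1]
    rw [Finset.sum_eq_single 0]
    · simp
    · intro i _ hi
      have : (i : ℕ) ≠ 0 := fun h => hi (Fin.ext h)
      simp [this]
    · intro h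
      exact absurd (Finset.mem_univ _) h
  · intro i
    have := RingHom.map_vecMul (Polynomial.evalRingHom (0 : A))
      (G : Matrix (Fin (n + 1)) (Fin (n + 1)) A[X]) (rowE1 (n + 1) A[X]) i
    rw [hE] at this
    rw [← Polynomial.coe_evalRingHom, this]
    have h2 : (G : Matrix (Fin (n + 1)) (Fin (n + 1)) A[X]).map (Polynomial.evalRingHom (0 : A)) =
        1 := by
      have := congrArg (fun g : GL (Fin (n + 1)) A => (g : Matrix (Fin (n + 1)) (Fin (n + 1)) A)) h0
      simpa using this
    rw [h2, Matrix.vecMul_one]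
  · intro i
    have := RingHom.map_vecMul (Polynomial.evalRingHom (1 : A))
      (G : Matrix (Fin (n + 1)) (Fin (n + 1)) A[X]) (rowE1 (n + 1) A[X]) i
    rw [hE] at this
    rw [← Polynomial.coe_evalRingHom, this]
    have h2 : (G : Matrix (Fin (n + 1)) (Fin (n + 1)) A[X]).map (Polynomial.evalRingHom (1 : A)) =
        g := by
      have := congrArg (fun g : GL (Fin (n + 1)) A => (g : Matrix (Fin (n + 1)) (Fin (n + 1)) A)) h1
      simpa using this
    rw [h2, hgv]

/-- Ring homomorphisms map `e_1 E_n` to `e_1 E_n`. -/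
theorem elemRows_map {B : Type*} [CommRing B] (φ : A →+* B) (v : Fin n → A)
    (hv : v ∈ elemRows n A) : (fun i => φ (v i)) ∈ elemRows n B := by
  obtain ⟨g, hg, hgv⟩ := hv
  refine ⟨Matrix.GeneralLinearGroup.map φ g, ?_, ?_⟩
  · have h : (elemGroup n A).map (Matrix.GeneralLinearGroup.map φ) ≤ elemGroup n B := by
      unfold elemGroup
      rw [MonoidHom.map_closure]
      refine Subgroup.closure_mono ?_
      rintro _ ⟨g, ⟨i, j, hij, c, hg⟩, rfl⟩
      refine ⟨i, j, hij, φ c, ?_⟩
      ext a b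
      simp only [Matrix.GeneralLinearGroup.map_apply, hg, Matrix.transvection, Matrix.add_apply,
        Matrix.one_apply, Matrix.single_apply]
      split_ifs <;> simp
    exact h (Subgroup.mem_map_of_mem _ hg)
  · funext i
    rw [hgv, RingHom.map_vecMul]
    congr 1
    · congr 1
      funext j
      simp only [Function.comp, rowE1]
      split_ifs <;> simp

end Pool.Agent.H30.GU
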