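import Pool.Agent.H30.GU.Div
import Pool.Agent.H30.GU.Hom

/-!
# The row and its degree
-/

namespace Pool.Agent.H30.GU

open MvPolynomial Matrix MeasureTheory

variable {e : ℕ}

/-- `p = ∏ (1 - y_j ^ 2)`. -/
noncomputable def pp (e : ℕ) : MvPolynomial (Fin (e + 1)) ℝ :=
  ∏ j : Fin e, (1 - X j.castSucc ^ 2)

/-- `q = p (1 - s ^ 2)`. -/
noncomputable def qq (e : ℕ) : MvPolynomial (Fin (e + 1)) ℝ :=
  pp e * (1 - X (Fin.last e) ^ 2)

/-- The row `(2 s ^ 2 - 1, y_1, …, y_e, q s)`. -/
noncomputable def row (e : ℕ) : Fin (e + 2) → MvPolynomial (Fin (e + 1)) ℝ :=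
  Fin.cons (2 * X (Fin.last e) ^ 2 - 1)
    (Fin.snoc (fun j : Fin e => X j.castSucc) (qq e * X (Fin.last e)))

theorem row_zero : row e 0 = 2 * X (Fin.last e) ^ 2 - 1 := rfl

theorem row_mid (j : Fin e) : row e j.castSucc.succ = X j.castSucc := by
  unfold row
  rw [Fin.cons_succ, Fin.snoc_castSucc]

theorem row_last : row e (Fin.last (e + 1)) = qq e * X (Fin.last e) := by
  unfold row
  rw [← Fin.succ_last, Fin.cons_succ, Fin.snoc_last]

/-- The degree determinant of a row `v` of polynomials at `z`. -/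
noncomputable def Jm {k : ℕ} (v : Fin (k + 1) → MvPolynomial (Fin k) ℝ) (z : Fin k → ℝ) :
    Matrix (Fin (k + 1)) (Fin (k + 1)) ℝ :=
  Matrix.of fun l j => (Fin.cons (eval z (v l)) (fun i : Fin k => eval z (pderiv i (v l))) :
    Fin (k + 1) → ℝ) j

theorem hasDerivAt_line {n : ℕ} (r : MvPolynomial (Fin n) ℝ) (x : Fin n → ℝ) (j : Fin n) :
    HasDerivAt (fun t => eval (Function.update x j t) r) (eval x (pderiv j r)) (x j) := by
  have h1 := hasDerivAt_update x j (x j)
  have h2 := hasFDerivAt_eval r (Function.update x j (x j))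
  have h3 := h2.comp_hasDerivAt (x j) h1
  rw [dpoly_single, Function.update_eq_self] at h3
  exact h3

theorem eval_N_face {k : ℕ} (F : Fin (k + 1) → MvPolynomial (Fin (k + 1)) ℝ)
    (v : Fin (k + 1) → MvPolynomial (Fin k) ℝ) (c : ℝ)
    (h : ∀ (z : Fin k → ℝ) l, eval (Fin.cons c z : Fin (k + 1) → ℝ) (F l) = eval z (v l))
    (z : Fin k → ℝ) : eval (Fin.cons c z : Fin (k + 1) → ℝ) (N F 0) = (Jm v z).det := by
  rw [eval_N]
  congr 1
  ext l j
  unfold Jm
  rw [Matrix.of_apply, Matrix.of_apply]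
  refine Fin.cases ?_ (fun i => ?_) j
  · simp only [if_true, Fin.cons_zero]
    exact h z l
  · rw [if_neg (Fin.succ_ne_zero i), Fin.cons_succ]
    have h1 := hasDerivAt_line (F l) (Fin.cons c z) i.succ
    have h2 := hasDerivAt_line (v l) z i
    have h3 : (fun t => eval (Function.update (Fin.cons c z : Fin (k + 1) → ℝ) i.succ t) (F l)) =
        fun t => eval (Function.update z i t) (v l) := by
      funext t
      rw [← h, Fin.cons_update]
    rw [h3, Fin.cons_succ] at h1
    exact h1.unique h2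

/-- The index equivalence used to compute the determinant. -/
def idxFun (e : ℕ) : Fin 2 ⊕ Fin e → Fin (e + 2) :=
  Sum.elim (fun a => if a = 0 then 0 else Fin.last (e + 1)) (fun j => j.castSucc.succ)

theorem idxFun_bij (e : ℕ) : Function.Bijective (idxFun e) := by
  rw [Fintype.bijective_iff_injective_and_card]
  constructor
  · intro a b hab
    rcases a with a | a <;> rcases b with b | b <;> simp only [idxFun, Sum.elim_inl, Sum.elim_inr] at hab
    · congr 1
      fin_cases a <;> fin_cases b <;> simp_all [Fin.ext_iff]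
    · exfalso
      have := congrArg Fin.val hab
      have hb := b.2
      split_ifs at this <;> simp at this <;> omega
    · exfalso
      have := congrArg Fin.val hab
      have ha := a.2
      split_ifs at this <;> simp at this <;> omega
    · congr 1
      have := congrArg Fin.val hab
      simp at this
      exact Fin.ext this
  · simp [add_comm]

/-- The index equivalence. -/
noncomputable def idx (e : ℕ) : Fin 2 ⊕ Fin e ≃ Fin (e + 2) :=
  Equiv.ofBijective (idxFun e) (idxFun_bij e)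

theorem pderiv_pp (j : Fin e) (z : Fin (e + 1) → ℝ) :
    eval z (pderiv j.castSucc (pp e)) =
      -2 * z j.castSucc * ∏ i ∈ Finset.univ \ {j}, (1 - z i.castSucc ^ 2) := by
  classical
  unfold pp
  rw [der_prod, map_sum, Finset.sum_eq_single j]
  · rw [Finset.prod_update_of_mem (Finset.mem_univ j), map_mul, map_prod]
    congr 1
    · simp [pderiv_X]
    · exact Finset.prod_congr rfl fun i _ => by simp
  · intro i _ hi
    rw [Finset.prod_update_of_mem (Finset.mem_univ i), map_mul]
    have h0 : (pderiv j.castSucc) (1 - X i.castSucc ^ 2 : MvPolynomial (Fin (e + 1)) ℝ) = 0 := by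
      have h1 : (i.castSucc : Fin (e + 1)) ≠ j.castSucc := fun h => hi (Fin.castSucc_injective e h)
      simp [pderiv_X, Derivation.leibniz_pow, h1]
    rw [h0]
    simp
  · intro h
    exact absurd (Finset.mem_univ _) h

theorem pderiv_last_pp : pderiv (Fin.last e) (pp e) = 0 := by
  classical
  unfold pp
  rw [der_prod]
  refine Finset.sum_eq_zero fun i _ => ?_
  rw [Finset.prod_update_of_mem (Finset.mem_univ i)]
  have h0 : (pderiv (Fin.last e)) (1 - X i.castSucc ^ 2 : MvPolynomial (Fin (e + 1)) ℝ) = 0 := by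
    have h1 : (i.castSucc : Fin (e + 1)) ≠ Fin.last e := (Fin.castSucc_lt_last i).ne
    simp [pderiv_X, Derivation.leibniz_pow, h1]
  rw [h0, zero_mul]

theorem pderiv_two {n : ℕ} (i : Fin n) : pderiv i (2 : MvPolynomial (Fin n) ℝ) = 0 := by
  have h : (2 : MvPolynomial (Fin n) ℝ) = C 2 := (map_ofNat C 2).symm
  rw [h, pderiv_C]

theorem det_row (z : Fin (e + 1) → ℝ) :
    (Jm (row e) z).det = -((∏ j : Fin e, (1 - z j.castSucc ^ 2)) *
        (1 - z (Fin.last e) ^ 2 + 2 * z (Fin.last e) ^ 4) +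
      4 * z (Fin.last e) ^ 2 * (1 - z (Fin.last e) ^ 2) *
        ∑ j : Fin e, 2 * z j.castSucc ^ 2 * ∏ i ∈ Finset.univ \ {j}, (1 - z i.castSucc ^ 2)) := by
  classical
  rw [← Matrix.det_submatrix_equiv_self (idx e)]
  set s := z (Fin.last e) with hs
  set P := ∏ j : Fin e, (1 - z j.castSucc ^ 2) with hP
  let A : Matrix (Fin 2) (Fin 2) ℝ := !![2 * s ^ 2 - 1, 4 * s; P * (1 - s ^ 2) * s, P * (1 - 3 * s ^ 2)]
  let B : Matrix (Fin 2) (Fin e) ℝ := Matrix.of fun a j => if a = 0 then 0 else
    (-2 * z j.castSucc * ∏ i ∈ Finset.univ \ {j}, (1 - z i.castSucc ^ 2)) * (1 - s ^ 2) * s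
  let C : Matrix (Fin e) (Fin 2) ℝ := Matrix.of fun j a => if a = 0 then z j.castSucc else 0
  have hlast : ∀ j : Fin e, (j.castSucc : Fin (e + 1)) ≠ Fin.last e :=
    fun j => (Fin.castSucc_lt_last j).ne
  have hpp : eval z (pp e) = P := by
    simp [pp, hP]
  have hM : (Jm (row e) z).submatrix (idx e) (idx e) = Matrix.fromBlocks A B C 1 := by
    have hi0 : idx e (Sum.inl 0) = 0 := rfl
    have hi1 : idx e (Sum.inl 1) = Fin.last (e + 1) := rfl
    have hi2 : ∀ j, idx e (Sum.inr j) = j.castSucc.succ := fun j => rfl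
    have hc1 : ∀ l, Jm (row e) z l 0 = eval z (row e l) := fun l => rfl
    have hc2 : ∀ l i, Jm (row e) z l (Fin.succ i) = eval z (pderiv i (row e l)) := fun l i => rfl
    have hc3 : ∀ l, Jm (row e) z l (Fin.last (e + 1)) = eval z (pderiv (Fin.last e) (row e l)) :=
      fun l => rfl
    ext a b
    rcases a with a | a <;> rcases b with b | b
    · fin_cases a <;> fin_cases b
      · simp [hi0, hc1, row_zero, A, hs]
      · simp [hi0, hi1, hc3, row_zero, A, hs, pderiv_X, Derivation.leibniz_pow,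
          Derivation.leibniz, pderiv_two]
        ring
      · simp [hi0, hi1, hc1, row_last, A, hs, qq, hpp]
      · simp [hi1, hc3, row_last, A, hs, qq, hpp, pderiv_last_pp, pderiv_X, Derivation.leibniz_pow,
          Derivation.leibniz]
        ring
    · fin_cases a
      · simp [hi0, hi2, hc2, row_zero, B, pderiv_X, Derivation.leibniz_pow,
          Derivation.leibniz, pderiv_two]
      · simp [hi1, hi2, hc2, row_last, B, qq, pderiv_pp, pderiv_X, Derivation.leibniz_pow,
          Derivation.leibniz]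
        ring
    · fin_cases b
      · simp [hi0, hi2, hc1, row_mid, C]
      · simp [hi1, hi2, hc3, row_mid, C, pderiv_X]
    · by_cases hab : a = b
      · subst hab
        simp [hi2, hc2, row_mid, pderiv_X]
      · have hab' : (a.castSucc : Fin (e + 1)) ≠ b.castSucc :=
          fun h => hab (Fin.castSucc_injective e h)
        simp [hi2, hc2, row_mid, pderiv_X, Matrix.one_apply, hab, hab']
  rw [hM, Matrix.det_fromBlocks_one₂₂, Matrix.det_fin_two]
  have hBC : ∀ a b, (B * C) a b = if a = 0 then 0 else if b = 0 then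
      -((1 - s ^ 2) * s * ∑ j : Fin e, 2 * z j.castSucc ^ 2 *
        ∏ i ∈ Finset.univ \ {j}, (1 - z i.castSucc ^ 2)) else 0 := by
    intro a b
    rw [Matrix.mul_apply]
    by_cases ha : a = 0
    · simp [B, ha]
    · by_cases hb : b = 0
      · simp only [B, C, Matrix.of_apply, if_neg ha, if_pos hb]
        rw [Finset.mul_sum, ← Finset.sum_neg_distrib]
        refine Finset.sum_congr rfl fun j _ => ?_
        ring
      · simp [C, hb]
  simp only [Matrix.sub_apply, hBC]
  simp only [A, Matrix.of_apply, Matrix.cons_val', Matrix.cons_val_zero, Matrix.cons_val_one,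
    Matrix.cons_val_fin_one, if_true, one_ne_zero, if_false, sub_zero]
  ring

/-- Reflection of the last coordinate. -/
def refl (z : Fin (e + 1) → ℝ) : Fin (e + 1) → ℝ := fun i => if i = Fin.last e then -z i else z i

/-- A polynomial is folded if on the hyperplanes `z_i = ± 1` it is even in the last coordinate. -/
def Folded (f : MvPolynomial (Fin (e + 1)) ℝ) : Prop :=
  ∀ z : Fin (e + 1) → ℝ, (∃ i, z i = 1 ∨ z i = -1) → eval z f = eval (refl z) f

/-- The substitution `s ↦ -s`. -/
noncomputable def reflHom (e : ℕ) : MvPolynomial (Fin (e + 1)) ℝ →+* MvPolynomial (Fin (e + 1)) ℝ :=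
  (aeval (R := ℝ) (fun i : Fin (e + 1) => if i = Fin.last e then
    -(X i : MvPolynomial (Fin (e + 1)) ℝ) else X i)).toRingHom

theorem reflHom_X (i : Fin (e + 1)) : reflHom e (X i) = if i = Fin.last e then -(X i) else X i := by
  simp [reflHom]

theorem eval_reflHom (f : MvPolynomial (Fin (e + 1)) ℝ) (z : Fin (e + 1) → ℝ) :
    eval z (reflHom e f) = eval (refl z) f := by
  induction f using MvPolynomial.induction_on with
  | C a => simp [reflHom]
  | add p q hp hq => simp only [map_add, hp, hq]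
  | mul_X p i hp =>
    rw [map_mul, map_mul, map_mul, hp, reflHom_X, eval_X]
    simp only [refl]
    split_ifs <;> simp

/-- The polynomial in `k + 1` variables attached to a path. -/
noncomputable def Fof {A : Type*} [CommRing A] {k : ℕ} (θ : A →+* MvPolynomial (Fin k) ℝ)
    (w : Polynomial A) : MvPolynomial (Fin (k + 1)) ℝ :=
  (finSuccEquiv ℝ k).symm (w.map θ)

theorem eval_Fof {A : Type*} [CommRing A] {k : ℕ} (θ : A →+* MvPolynomial (Fin k) ℝ)
    (w : Polynomial A) (t : ℝ) (z : Fin k → ℝ) :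
    eval (Fin.cons t z : Fin (k + 1) → ℝ) (Fof θ w) =
      Polynomial.eval t (w.map ((eval z).comp θ)) := by
  rw [eval_eq_eval_mv_eval', Fof, AlgEquiv.apply_symm_apply, Polynomial.map_map]

theorem reflHom_row (l : Fin (e + 2)) :
    reflHom e (row e l) = C (if l = Fin.last (e + 1) then -1 else 1) * row e l := by
  have hl : ∀ j : Fin e, (j.castSucc : Fin (e + 1)) ≠ Fin.last e :=
    fun j => (Fin.castSucc_lt_last j).ne
  refine Fin.cases ?_ (fun i => ?_) l
  · have h0 : (0 : Fin (e + 2)) ≠ Fin.last (e + 1) := by simp [Fin.ext_iff]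
    rw [if_neg h0, row_zero, map_sub, map_mul, map_pow, reflHom_X, if_pos rfl]
    simp [map_ofNat]
  · refine Fin.lastCases ?_ (fun j => ?_) i
    · rw [Fin.succ_last, if_pos rfl, row_last, map_mul, reflHom_X, if_pos rfl]
      have hq : reflHom e (qq e) = qq e := by
        unfold qq pp
        rw [map_mul, map_prod]
        congr 1
        · refine Finset.prod_congr rfl fun j _ => ?_
          rw [map_sub, map_pow, reflHom_X, if_neg (hl j), map_one]
        · rw [map_sub, map_pow, reflHom_X, if_pos rfl, map_one]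
          ring
      rw [hq]
      simp
    · have h0 : (j.castSucc.succ : Fin (e + 2)) ≠ Fin.last (e + 1) := by
        rw [← Fin.succ_last]
        exact fun h => hl j (Fin.succ_injective _ h)
      rw [if_neg h0, row_mid, reflHom_X, if_neg (hl j)]
      simp

theorem Jm_refl (z : Fin (e + 1) → ℝ) :
    (Jm (fun l => reflHom e (row e l)) z).det = - (Jm (row e) z).det := by
  have h : Jm (fun l => reflHom e (row e l)) z =
      Matrix.of fun l j => (if l = Fin.last (e + 1) then (-1 : ℝ) else 1) * Jm (row e) z l j := by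
    ext l j
    rw [Matrix.of_apply]
    unfold Jm
    rw [Matrix.of_apply, Matrix.of_apply]
    refine Fin.cases ?_ (fun i => ?_) j
    · rw [Fin.cons_zero, Fin.cons_zero]
      beta_reduce
      rw [reflHom_row, map_mul, eval_C]
    · rw [Fin.cons_succ, Fin.cons_succ]
      beta_reduce
      rw [reflHom_row, pderiv_C_mul, map_mul, eval_C]
  rw [h, Matrix.det_mul_column]
  simp

/-- The density of the degree integral of the row at time `1` is nonnegative on the cube. -/
theorem det_row_nonpos (z : Fin (e + 1) → ℝ) (hz : ∀ i, -1 ≤ z i ∧ z i ≤ 1) :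
    (Jm (row e) z).det ≤ 0 := by
  have h1 : ∀ i, 0 ≤ 1 - z i ^ 2 := fun i => by nlinarith [hz i]
  have h2 : 0 ≤ ∏ j : Fin e, (1 - z j.castSucc ^ 2) := Finset.prod_nonneg fun j _ => h1 _
  have h3 : 0 ≤ ∑ j : Fin e, 2 * z j.castSucc ^ 2 *
      ∏ i ∈ Finset.univ \ {j}, (1 - z i.castSucc ^ 2) :=
    Finset.sum_nonneg fun j _ => mul_nonneg (by positivity) (Finset.prod_nonneg fun i _ => h1 _)
  rw [det_row]
  have h4 := h1 (Fin.last e)
  have h5 : 0 ≤ 1 - z (Fin.last e) ^ 2 + 2 * z (Fin.last e) ^ 4 := by positivity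
  have h6 := mul_nonneg h2 h5
  have h7 := mul_nonneg (mul_nonneg (by positivity : 0 ≤ 4 * z (Fin.last e) ^ 2) h4) h3
  linarith

theorem det_row_neg (z : Fin (e + 1) → ℝ) (hz : ∀ i, -1 < z i ∧ z i < 1) :
    (Jm (row e) z).det < 0 := by
  have h1 : ∀ i, 0 < 1 - z i ^ 2 := fun i => by nlinarith [hz i]
  have h2 : 0 < ∏ j : Fin e, (1 - z j.castSucc ^ 2) := Finset.prod_pos fun j _ => h1 _
  have h3 : 0 ≤ ∑ j : Fin e, 2 * z j.castSucc ^ 2 *
      ∏ i ∈ Finset.univ \ {j}, (1 - z i.castSucc ^ 2) :=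
    Finset.sum_nonneg fun j _ => mul_nonneg (by positivity) (Finset.prod_nonneg fun i _ => (h1 _).le)
  rw [det_row]
  have h4 := h1 (Fin.last e)
  have h5 : 0 < 1 - z (Fin.last e) ^ 2 + 2 * z (Fin.last e) ^ 4 := by positivity
  have h6 := mul_pos h2 h5
  have h7 := mul_nonneg (mul_nonneg (by positivity : 0 ≤ 4 * z (Fin.last e) ^ 2) h4.le) h3
  linarith

/-- **The row is not elementary**: if `θ : A → ℝ[y_1, …, y_e, s]` has folded values and maps the
entries of `v` to the entries of `row e`, then `v` is not in `e_1 E(A)`. -/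
theorem main_abs {A : Type*} [CommRing A] (θ : A →+* MvPolynomial (Fin (e + 1)) ℝ)
    (hθ : ∀ a, Folded (θ a)) (v : Fin (e + 2) → A) (hv : ∀ l, θ (v l) = row e l) :
    v ∉ elemRows (e + 2) A := by
  intro hmem
  obtain ⟨w, b, hwb, h0, h1⟩ := exists_row_path (n := e + 1) v hmem
  let F : Fin (e + 2) → MvPolynomial (Fin (e + 2)) ℝ := fun l => Fof θ (w l)
  let G : Fin (e + 2) → MvPolynomial (Fin (e + 2)) ℝ := fun l => Fof ((reflHom e).comp θ) (w l)
  have hpos : ∀ (φ : A →+* MvPolynomial (Fin (e + 1)) ℝ) (x : Fin (e + 2) → ℝ),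
      0 < eval x (D (fun l => Fof φ (w l))) := by
    intro φ x
    rw [eval_D]
    have hx : x = Fin.cons (x 0) (Fin.tail x) := (Fin.cons_self_tail x).symm
    have hsum : ∑ l, eval x (Fof φ (w l)) * eval x (Fof φ (b l)) = 1 := by
      rw [hx]
      simp only [eval_Fof]
      have := congrArg (fun P : Polynomial A => Polynomial.eval (x 0)
        (P.map ((eval (Fin.tail x)).comp φ))) hwb
      simpa [Polynomial.map_sum, Polynomial.eval_finsetSum] using this
    by_contra hcon
    have hle : ∑ l, (eval x (Fof φ (w l))) ^ 2 ≤ 0 := not_lt.1 hcon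
    have hz : ∀ l, eval x (Fof φ (w l)) = 0 := by
      intro l
      have h2 := (Finset.sum_eq_zero_iff_of_nonneg (fun l _ => sq_nonneg _)).1
        (le_antisymm hle (Finset.sum_nonneg fun l _ => sq_nonneg _)) l (Finset.mem_univ l)
      exact pow_eq_zero_iff (two_ne_zero) |>.1 h2
    simp [hz] at hsum
  have hat0 : ∀ (φ : A →+* MvPolynomial (Fin (e + 1)) ℝ) (z : Fin (e + 1) → ℝ) l,
      eval (Fin.cons 0 z : Fin (e + 2) → ℝ) (Fof φ (w l)) = rowE1 (e + 2) ℝ l := by
    intro φ z l
    rw [eval_Fof]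
    have h2 := Polynomial.eval₂_at_apply (p := w l) ((eval z).comp φ) 0
    rw [map_zero] at h2
    rw [Polynomial.eval_map, h2, h0]
    simp only [rowE1]
    split_ifs <;> simp
  have hat1 : ∀ (φ : A →+* MvPolynomial (Fin (e + 1)) ℝ) (z : Fin (e + 1) → ℝ) l,
      eval (Fin.cons 1 z : Fin (e + 2) → ℝ) (Fof φ (w l)) = eval z (φ (v l)) := by
    intro φ z l
    rw [eval_Fof]
    have h2 := Polynomial.eval₂_at_apply (p := w l) ((eval z).comp φ) 1
    rw [map_one] at h2
    rw [Polynomial.eval_map, h2, h1]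
    rfl
  have hlat : ∀ (x : Fin (e + 2) → ℝ) (j : Fin (e + 1)), (x j.succ = 1 ∨ x j.succ = -1) →
      ∀ l, eval x (F l) = eval x (G l) := by
    intro x j hj l
    have hx : x = Fin.cons (x 0) (Fin.tail x) := (Fin.cons_self_tail x).symm
    rw [hx]
    simp only [F, G, eval_Fof]
    congr 2
    ext a
    simp only [RingHom.comp_apply]
    rw [eval_reflHom]
    exact hθ a _ ⟨j, hj⟩
  have hcore := core (Fin.cons 0 (fun _ => -1)) (Fin.cons 1 (fun _ => 1)) (by
      intro i
      refine Fin.cases ?_ (fun j => ?_) i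
      · simp
      · simp only [Fin.cons_succ]; norm_num) F G (hpos θ) (hpos _) (by
      intro i x hx l
      revert hx
      refine Fin.cases ?_ (fun j => ?_) i
      · intro hx
        have hx' : x = Fin.cons (x 0) (Fin.tail x) := (Fin.cons_self_tail x).symm
        rw [Fin.cons_zero] at hx
        rw [hx', hx]
        simp only [F, G, hat0]
      · intro hx
        rw [Fin.cons_succ] at hx
        exact hlat x j (Or.inr hx) l) (by
      intro i hi x hx l
      revert hi hx
      refine Fin.cases ?_ (fun j => ?_) i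
      · intro hi
        exact absurd rfl hi
      · intro _ hx
        rw [Fin.cons_succ] at hx
        exact hlat x j (Or.inl hx) l)
  have ha' : ((Fin.cons 0 (fun _ => -1) : Fin (e + 2) → ℝ) ∘ Fin.succAbove 0) =
      (fun _ : Fin (e + 1) => (-1 : ℝ)) := by
    funext j
    simp
  have hb' : ((Fin.cons 1 (fun _ => 1) : Fin (e + 2) → ℝ) ∘ Fin.succAbove 0) =
      (fun _ : Fin (e + 1) => (1 : ℝ)) := by
    funext j
    simp
  rw [ha', hb'] at hcore
  -- the density
  let S : (Fin (e + 1) → ℝ) → ℝ := fun z => ∑ l, (eval z (row e l)) ^ 2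
  have hWF : ∀ z : Fin (e + 1) → ℝ, W F 0 (Fin.insertNth 0
      ((Fin.cons 1 (fun _ => 1) : Fin (e + 2) → ℝ) 0) z) =
      (Jm (row e) z).det * (S z) ^ (-((e + 2 : ℕ) : ℝ) / 2) := by
    intro z
    rw [Fin.cons_zero, Fin.insertNth_zero']
    unfold W
    rw [eval_N_face F (row e) 1 (fun z l => by rw [hat1, hv]) z, eval_D]
    congr 2
    refine Finset.sum_congr rfl fun l _ => ?_
    rw [hat1, hv]
  have hWG : ∀ z : Fin (e + 1) → ℝ, W G 0 (Fin.insertNth 0
      ((Fin.cons 1 (fun _ => 1) : Fin (e + 2) → ℝ) 0) z) =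
      -((Jm (row e) z).det * (S z) ^ (-((e + 2 : ℕ) : ℝ) / 2)) := by
    intro z
    rw [Fin.cons_zero, Fin.insertNth_zero']
    unfold W
    have hG1 : ∀ (z : Fin (e + 1) → ℝ) l,
        eval (Fin.cons 1 z : Fin (e + 2) → ℝ) (G l) = eval z (reflHom e (row e l)) := by
      intro z l
      simp only [G, hat1, RingHom.comp_apply, hv]
    rw [eval_N_face G (fun l => reflHom e (row e l)) 1 hG1 z, Jm_refl, eval_D, neg_mul]
    congr 3
    refine Finset.sum_congr rfl fun l _ => ?_
    rw [hG1, reflHom_row, map_mul, eval_C]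
    split_ifs <;> ring
  have hS : ∀ z, 0 < S z := by
    intro z
    have h2 := hpos θ (Fin.cons 1 z)
    rw [eval_D] at h2
    have h3 : S z = ∑ l, (eval (Fin.cons 1 z : Fin (e + 2) → ℝ) (Fof θ (w l))) ^ 2 :=
      Finset.sum_congr rfl fun l _ => by rw [hat1, hv]
    rw [h3]
    exact h2
  let Φ : (Fin (e + 1) → ℝ) → ℝ := fun z =>
    -(2 * ((Jm (row e) z).det * (S z) ^ (-((e + 2 : ℕ) : ℝ) / 2)))
  have hΦ : ∀ z : Fin (e + 1) → ℝ, Φ z = -(W F 0 (Fin.insertNth 0
      ((Fin.cons 1 (fun _ => 1) : Fin (e + 2) → ℝ) 0) z) - W G 0 (Fin.insertNth 0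
      ((Fin.cons 1 (fun _ => 1) : Fin (e + 2) → ℝ) 0) z)) := by
    intro z
    rw [hWF, hWG]
    simp only [Φ]
    ring
  have hint0 : ∫ z in Set.Icc (fun _ : Fin (e + 1) => (-1 : ℝ)) (fun _ => 1), Φ z = 0 := by
    have h2 : (fun z => Φ z) = fun z : Fin (e + 1) → ℝ => -(W F 0 (Fin.insertNth 0
      ((Fin.cons 1 (fun _ => 1) : Fin (e + 2) → ℝ) 0) z) - W G 0 (Fin.insertNth 0
      ((Fin.cons 1 (fun _ => 1) : Fin (e + 2) → ℝ) 0) z)) := funext hΦ
    rw [h2, integral_neg, hcore, neg_zero]
  have hcont : Continuous Φ := by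
    have h2 : Φ = fun z : Fin (e + 1) → ℝ => -(W F 0 (Fin.insertNth 0
      ((Fin.cons 1 (fun _ => 1) : Fin (e + 2) → ℝ) 0) z) - W G 0 (Fin.insertNth 0
      ((Fin.cons 1 (fun _ => 1) : Fin (e + 2) → ℝ) 0) z)) := funext hΦ
    have h3 : Continuous (fun z : Fin (e + 1) → ℝ => (Fin.insertNth 0
      ((Fin.cons 1 (fun _ => 1) : Fin (e + 2) → ℝ) 0) z : Fin (e + 2) → ℝ)) := by
      simp only [Fin.cons_zero, Fin.insertNth_zero']
      refine continuous_pi fun i => ?_
      refine Fin.cases ?_ (fun j => ?_) i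
      · simp only [Fin.cons_zero]
        exact continuous_const
      · simp only [Fin.cons_succ]
        exact continuous_apply j
    have h4 : Continuous (W F 0) := continuousOn_univ.1 (continuousOn_W F (hpos θ) 0 _)
    have h5 : Continuous (W G 0) := continuousOn_univ.1 (continuousOn_W G (hpos _) 0 _)
    rw [h2]
    exact ((h4.comp h3).sub (h5.comp h3)).neg
  have hnn : ∀ z ∈ Set.Icc (fun _ : Fin (e + 1) => (-1 : ℝ)) (fun _ => 1), 0 ≤ Φ z := by
    intro z hz
    have h2 := det_row_nonpos z (fun i => ⟨hz.1 i, hz.2 i⟩)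
    have h3 := Real.rpow_pos_of_pos (hS z) (-((e + 2 : ℕ) : ℝ) / 2)
    have h4 := mul_nonpos_of_nonpos_of_nonneg h2 h3.le
    simp only [Φ]
    linarith
  have hpp' : ∀ z ∈ Set.pi Set.univ (fun _ : Fin (e + 1) => Set.Ioo (-1 : ℝ) 1), 0 < Φ z := by
    intro z hz
    have h2 := det_row_neg z (fun i => hz i (Set.mem_univ i))
    have h3 := Real.rpow_pos_of_pos (hS z) (-((e + 2 : ℕ) : ℝ) / 2)
    have h4 := mul_neg_of_neg_of_pos h2 h3
    simp only [Φ]
    linarith
  have hlt : 0 < ∫ z in Set.Icc (fun _ : Fin (e + 1) => (-1 : ℝ)) (fun _ => 1), Φ z := by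
    rw [setIntegral_pos_iff_support_of_nonneg_ae]
    · refine lt_of_lt_of_le ?_ (measure_mono (s := Set.pi Set.univ
        (fun _ : Fin (e + 1) => Set.Ioo (-1 : ℝ) 1)) ?_)
      · refine IsOpen.measure_pos volume (isOpen_set_pi Set.finite_univ fun _ _ => isOpen_Ioo)
          ⟨fun _ => 0, fun i _ => by simp⟩
      · intro z hz
        refine ⟨(hpp' z hz).ne', fun i => ?_, fun i => ?_⟩
        · exact (hz i (Set.mem_univ i)).1.le
        · exact (hz i (Set.mem_univ i)).2.le
    · filter_upwards [ae_restrict_mem measurableSet_Icc] with z hz using hnn z hz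
    · exact hcont.continuousOn.integrableOn_compact isCompact_Icc
  exact absurd hint0 hlt.ne'

end Pool.Agent.H30.GU
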