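import Mathlib

/-!
# The derivative of a determinant and the divergence of the degree field
-/

namespace Pool.Agent.H30.GU

open MvPolynomial Matrix

/-- Leibniz rule for products. -/
theorem der_prod {R S ι : Type*} [CommRing R] [CommRing S] [Algebra R S] [DecidableEq ι]
    (δ : Derivation R S S) (s : Finset ι) (f : ι → S) :
    δ (∏ i ∈ s, f i) = ∑ j ∈ s, ∏ i ∈ s, (Function.update f j (δ (f j))) i := by
  induction s using Finset.induction_on with
  | empty => simp
  | insert a s ha ih =>
    rw [Finset.prod_insert ha, Derivation.leibniz, ih, Finset.sum_insert ha, smul_eq_mul,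
      smul_eq_mul, Finset.prod_insert ha, Function.update_self, Finset.mul_sum, add_comm]
    congr 1
    · rw [mul_comm]
      congr 1
      refine Finset.prod_congr rfl fun i hi => ?_
      rw [Function.update_of_ne (by rintro rfl; exact ha hi)]
    · refine Finset.sum_congr rfl fun j hj => ?_
      rw [Finset.prod_insert ha, Function.update_of_ne (by rintro rfl; exact ha hj)]

/-- Jacobi's formula: derivative of a determinant, column by column. -/
theorem der_det {R S ι : Type*} [CommRing R] [CommRing S] [Algebra R S] [DecidableEq ι]
    [Fintype ι] (δ : Derivation R S S) (M : Matrix ι ι S) :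
    δ M.det = ∑ j, (M.updateCol j (fun l => δ (M l j))).det := by
  simp only [Matrix.det_apply', map_sum]
  rw [Finset.sum_comm]
  refine Finset.sum_congr rfl fun σ _ => ?_
  rw [Derivation.leibniz]
  have h1 : δ (((Equiv.Perm.sign σ : ℤ) : S)) = 0 := by simp
  rw [h1, smul_zero, add_zero, smul_eq_mul, der_prod, Finset.mul_sum]
  refine Finset.sum_congr rfl fun j _ => ?_
  congr 1
  refine Finset.prod_congr rfl fun i _ => ?_
  by_cases hij : i = j
  · subst hij; simp
  · rw [Function.update_of_ne hij, Matrix.updateCol_ne hij]

variable {n : ℕ}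

/-- The Jacobian matrix: the column `i` is `∂_i F`. -/
noncomputable def jac (F : Fin n → MvPolynomial (Fin n) ℝ) :
    Matrix (Fin n) (Fin n) (MvPolynomial (Fin n) ℝ) :=
  Matrix.of fun l i => pderiv i (F l)

/-- `N F i`: the Jacobian determinant with the column `i` replaced by `F`. -/
noncomputable def N (F : Fin n → MvPolynomial (Fin n) ℝ) (i : Fin n) :
    MvPolynomial (Fin n) ℝ :=
  ((jac F).updateCol i F).det

/-- The square of the norm of `F`. -/
noncomputable def D (F : Fin n → MvPolynomial (Fin n) ℝ) : MvPolynomial (Fin n) ℝ :=
  ∑ l, F l ^ 2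

theorem pderiv_comm' (i j : Fin n) (p : MvPolynomial (Fin n) ℝ) :
    pderiv i (pderiv j p) = pderiv j (pderiv i p) := by
  have h : ⁅(pderiv i : Derivation ℝ (MvPolynomial (Fin n) ℝ) (MvPolynomial (Fin n) ℝ)),
      (pderiv j : Derivation ℝ (MvPolynomial (Fin n) ℝ) (MvPolynomial (Fin n) ℝ))⁆ = 0 := by
    apply MvPolynomial.derivation_ext
    intro k
    rw [Derivation.commutator_apply]
    simp only [pderiv_X, Derivation.zero_apply]
    rcases eq_or_ne i k with h | h <;> rcases eq_or_ne j k with h' | h' <;>
      simp [h, h']
  have := congrArg (fun d => d p) h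
  simp only [Derivation.commutator_apply, Derivation.zero_apply] at this
  exact sub_eq_zero.1 this

/-- Divergence of `N F`: `∑ ∂_i N_i = n det (jac F)`. -/
theorem div_N (F : Fin n → MvPolynomial (Fin n) ℝ) :
    ∑ i, pderiv i (N F i) = n * (jac F).det := by
  classical
  let T : Fin n → Fin n → MvPolynomial (Fin n) ℝ := fun i j =>
    (((jac F).updateCol i F).updateCol j (fun l => pderiv i (pderiv j (F l)))).det
  have h1 : ∀ i, pderiv i (N F i) = (jac F).det + ∑ j, if i = j then 0 else T i j := by
    intro i
    unfold N
    rw [der_det]
    have h2 : ∀ j, (((jac F).updateCol i F).updateCol j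
        (fun l => pderiv i (((jac F).updateCol i F) l j))).det =
        (if i = j then (jac F).det else 0) + (if i = j then 0 else T i j) := by
      intro j
      by_cases hij : i = j
      · subst hij
        simp only [if_true, add_zero]
        congr 1
        ext l k
        by_cases hk : k = i
        · subst hk
          simp [jac]
        · simp [Matrix.updateCol_ne hk]
      · simp only [if_neg hij, zero_add, T]
        congr 1
        congr 1
        funext l
        rw [Matrix.updateCol_ne (Ne.symm hij)]
        rfl
    simp only [h2, Finset.sum_add_distrib]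
    simp
  have hT : ∀ i j, i ≠ j → T i j = - T j i := by
    intro i j hij
    have h3 : ((jac F).updateCol j F).updateCol i (fun l => pderiv j (pderiv i (F l))) =
        (((jac F).updateCol i F).updateCol j (fun l => pderiv i (pderiv j (F l)))).submatrix id
          (Equiv.swap i j) := by
      ext l k
      simp only [Matrix.submatrix_apply, id]
      by_cases hk : k = i
      · subst hk
        simp only [Equiv.swap_apply_left, Matrix.updateCol_self]
        rw [pderiv_comm']
      · by_cases hk' : k = j
        · subst hk'
          rw [Equiv.swap_apply_right, Matrix.updateCol_ne hk, Matrix.updateCol_self,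
            Matrix.updateCol_ne hij, Matrix.updateCol_self]
        · rw [Equiv.swap_apply_of_ne_of_ne hk hk', Matrix.updateCol_ne hk,
            Matrix.updateCol_ne hk', Matrix.updateCol_ne hk', Matrix.updateCol_ne hk]
    simp only [T]
    rw [h3, Matrix.det_permute', Equiv.Perm.sign_swap hij]
    simp
  have hS : ∑ i, ∑ j, (if i = j then 0 else T i j) = 0 := by
    have h4 : ∑ i, ∑ j, (if i = j then 0 else T i j) =
        - ∑ i, ∑ j, (if i = j then 0 else T i j) := by
      conv_lhs => rw [Finset.sum_comm]
      rw [← Finset.sum_neg_distrib]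
      refine Finset.sum_congr rfl fun i _ => ?_
      rw [← Finset.sum_neg_distrib]
      refine Finset.sum_congr rfl fun j _ => ?_
      by_cases hij : i = j
      · simp [hij]
      · rw [if_neg hij, if_neg (Ne.symm hij), hT j i (Ne.symm hij)]
    exact self_eq_neg.1 h4
  simp only [h1, Finset.sum_add_distrib, hS, add_zero]
  simp

/-- `∑ N_i ∂_i D = 2 D det (jac F)`. -/
theorem N_grad (F : Fin n → MvPolynomial (Fin n) ℝ) :
    ∑ i, N F i * pderiv i (D F) = 2 * D F * (jac F).det := by
  have h := Matrix.mulVec_cramer (jac F) F
  have h1 : ∀ l, ∑ i, pderiv i (F l) * N F i = (jac F).det * F l := by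
    intro l
    have := congrFun h l
    simp only [Matrix.mulVec, dotProduct, Matrix.cramer_apply, Pi.smul_apply, smul_eq_mul] at this
    exact this
  have h2 : ∀ i, N F i * pderiv i (D F) = ∑ l, 2 * F l * (pderiv i (F l) * N F i) := by
    intro i
    simp only [D, map_sum, Finset.mul_sum]
    refine Finset.sum_congr rfl fun l _ => ?_
    rw [Derivation.leibniz_pow]
    simp only [smul_eq_mul, nsmul_eq_mul]
    push_cast
    ring
  simp only [h2]
  rw [Finset.sum_comm]
  simp only [← Finset.mul_sum, h1, D]
  rw [Finset.mul_sum, Finset.sum_mul]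
  refine Finset.sum_congr rfl fun l _ => ?_
  ring

end Pool.Agent.H30.GU
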