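import Pool.Agent.H30.GU.Ex

/-!
# Laurent polynomial rings, graded subalgebras and the counterexamples
-/

namespace Pool.Agent.H30.GU

open MvPolynomial Matrix

/-- The Laurent polynomial ring `R[X_1^{±1}, …, X_m^{±1}]`, as the group algebra of `ℤ^m`. -/
abbrev Laurent (R : Type*) [CommRing R] (m : ℕ) : Type _ := AddMonoidAlgebra R (Fin m → ℤ)

/-- The component of total degree `k` of a Laurent polynomial. -/
noncomputable def degComp {R : Type*} [CommRing R] {m : ℕ} (k : ℤ) (f : Laurent R m) :
    Laurent R m :=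
  AddMonoidAlgebra.ofCoeff (f.coeff.filter fun a => ∑ i, a i = k)

/-- A graded subalgebra: it contains all the homogeneous components (for the total degree) of its
elements. -/
def IsGradedSub {R : Type*} [CommRing R] {m : ℕ} (A : Subalgebra R (Laurent R m)) : Prop :=
  ∀ f ∈ A, ∀ k : ℤ, degComp k f ∈ A

section graded

variable {R : Type*} [CommRing R] {m : ℕ}

/-- `f` is homogeneous of degree `k`. -/
def Homog (k : ℤ) (f : Laurent R m) : Prop := ∀ a : Fin m → ℤ, f.coeff a ≠ 0 → ∑ i, a i = k

theorem Homog.mul {k l : ℤ} {f g : Laurent R m} (hf : Homog k f) (hg : Homog l g) :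
    Homog (k + l) (f * g) := by
  classical
  intro a ha
  have h1 : a ∈ (f * g).coeff.support := Finsupp.mem_support_iff.2 ha
  have h2 := AddMonoidAlgebra.support_coeff_mul_subset f g h1
  obtain ⟨b, hb, c, hc, rfl⟩ := Finset.mem_add.1 h2
  have h3 := hf b (Finsupp.mem_support_iff.1 hb)
  have h4 := hg c (Finsupp.mem_support_iff.1 hc)
  simp only [Pi.add_apply, Finset.sum_add_distrib, h3, h4]

theorem homog_one : Homog 0 (1 : Laurent R m) := by
  classical
  intro a ha
  rw [AddMonoidAlgebra.one_def, AddMonoidAlgebra.coeff_single, Finsupp.single_apply] at ha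
  split_ifs at ha with h
  · rw [← h]; simp
  · exact absurd rfl ha

theorem homog_single (a : Fin m → ℤ) (r : R) :
    Homog (∑ i, a i) (AddMonoidAlgebra.single a r : Laurent R m) := by
  classical
  intro b hb
  rw [AddMonoidAlgebra.coeff_single, Finsupp.single_apply] at hb
  split_ifs at hb with h
  · rw [← h]
  · exact absurd rfl hb

theorem degComp_add (k : ℤ) (f g : Laurent R m) : degComp k (f + g) = degComp k f + degComp k g := by
  unfold degComp
  rw [AddMonoidAlgebra.coeff_add, Finsupp.filter_add]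
  rfl

theorem degComp_smul (k : ℤ) (r : R) (f : Laurent R m) : degComp k (r • f) = r • degComp k f := by
  unfold degComp
  ext a
  simp [Finsupp.filter_apply]

theorem degComp_zero (k : ℤ) : degComp k (0 : Laurent R m) = 0 := by
  unfold degComp
  ext a
  simp [Finsupp.filter_apply]

theorem degComp_homog {k l : ℤ} {f : Laurent R m} (hf : Homog l f) :
    degComp k f = if k = l then f else 0 := by
  unfold degComp
  ext a
  rw [AddMonoidAlgebra.coeff_ofCoeff, Finsupp.filter_apply]
  by_cases ha : f.coeff a = 0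
  · rw [ha]
    split_ifs <;> simp [ha]
  · have := hf a ha
    rw [this]
    by_cases h : k = l
    · simp [h]
    · rw [if_neg h, if_neg (Ne.symm h)]
      simp

/-- A subalgebra generated by homogeneous elements is graded. -/
theorem isGradedSub_adjoin (S : Set (Laurent R m)) (hS : ∀ s ∈ S, ∃ k, Homog k s) :
    IsGradedSub (Algebra.adjoin R S) := by
  intro f hf k
  have hf' : f ∈ Submodule.span R (Submonoid.closure S : Set (Laurent R m)) := by
    rw [← Algebra.adjoin_eq_span]
    exact hf
  clear hf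
  induction hf' using Submodule.span_induction with
  | mem x hx =>
    have h1 : ∃ l, Homog l x := by
      induction hx using Submonoid.closure_induction with
      | mem x hx => exact hS x hx
      | one => exact ⟨0, homog_one⟩
      | mul x y _ _ hx hy =>
        obtain ⟨a, ha⟩ := hx
        obtain ⟨b, hb⟩ := hy
        exact ⟨a + b, ha.mul hb⟩
    obtain ⟨l, hl⟩ := h1
    have h2 : x ∈ Algebra.adjoin R S := by
      have := Algebra.adjoin_eq_span R S
      rw [← Subalgebra.mem_toSubmodule, this]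
      exact Submodule.subset_span hx
    rw [degComp_homog hl]
    split_ifs
    · exact h2
    · exact zero_mem _
  | zero => rw [degComp_zero]; exact zero_mem _
  | add x y hx hy ihx ihy =>
    rw [degComp_add]
    exact add_mem ihx ihy
  | smul r x hx ih =>
    rw [degComp_smul]
    exact Subalgebra.smul_mem _ ih r

end graded

section embed

variable (R : Type*) [CommRing R] {r m : ℕ}

/-- The exponent of the monomial `X_{j+1} / X_0` (numbering the variables `X_0, …, X_{m-1}`). -/
def expo (hm : r + 2 ≤ m) (j : Fin (r + 1)) : Fin m → ℤ :=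
  Pi.single ⟨j.val + 1, by omega⟩ 1 - Pi.single ⟨0, by omega⟩ 1

/-- The monomial `X_{j+1} / X_0`, of degree `0`. -/
noncomputable def frac (hm : r + 2 ≤ m) (j : Fin (r + 1)) : Laurent R m :=
  AddMonoidAlgebra.single (expo hm j) 1

/-- The map on exponents. -/
noncomputable def phi (hm : r + 2 ≤ m) : (Fin (r + 1) →₀ ℕ) →+ (Fin m → ℤ) :=
  (Finsupp.linearCombination ℕ (expo hm)).toAddMonoidHom

theorem phi_single (hm : r + 2 ≤ m) (j : Fin (r + 1)) :
    phi hm (Finsupp.single j 1) = expo hm j := by
  simp [phi]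

theorem phi_apply (hm : r + 2 ≤ m) (a : Fin (r + 1) →₀ ℕ) (i : Fin m) :
    phi hm a i = ∑ j, (a j : ℤ) * expo hm j i := by
  simp only [phi, LinearMap.toAddMonoidHom_coe, Finsupp.linearCombination_apply]
  rw [Finsupp.sum_fintype _ _ (by simp), Finset.sum_apply]
  refine Finset.sum_congr rfl fun j _ => ?_
  simp

theorem phi_injective (hm : r + 2 ≤ m) : Function.Injective (phi hm) := by
  have h : ∀ (a : Fin (r + 1) →₀ ℕ) (j : Fin (r + 1)), phi hm a ⟨j.val + 1, by omega⟩ = a j := by
    intro a j
    rw [phi_apply, Finset.sum_eq_single j]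
    · simp [expo]
    · intro i _ hi
      have h1 : (j.val : ℕ) ≠ i.val := fun h => hi (Fin.ext h.symm)
      simp [expo, h1]
    · intro h
      exact absurd (Finset.mem_univ _) h
  intro a b hab
  ext j
  have h1 := congrFun hab ⟨j.val + 1, by omega⟩
  rw [h, h] at h1
  exact_mod_cast h1

/-- The embedding `R[x_0, …, x_r] → L`, `x_j ↦ X_{j+1} / X_0`. -/
noncomputable def iota (hm : r + 2 ≤ m) : MvPolynomial (Fin (r + 1)) R →ₐ[R] Laurent R m :=
  AddMonoidAlgebra.mapDomainAlgHom R R (phi hm)

theorem iota_X (hm : r + 2 ≤ m) (j : Fin (r + 1)) : iota R hm (X j) = frac R hm j := by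
  unfold iota frac
  rw [← phi_single hm j]
  exact AddMonoidAlgebra.mapDomain_single

theorem iota_injective (hm : r + 2 ≤ m) : Function.Injective (iota R hm) :=
  AddMonoidAlgebra.mapDomain_injective (phi_injective hm)

theorem homog_frac (hm : r + 2 ≤ m) (j : Fin (r + 1)) : Homog 0 (frac R hm j) := by
  have h := homog_single (m := m) (expo hm j) (1 : R)
  have h0 : ∑ i, expo hm j i = 0 := by
    simp [expo, Finset.sum_sub_distrib]
  rw [h0] at h
  exact h

end embed

section bezout

/-- Abstract Bezout relation for the row. -/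
theorem bez {A : Type*} [CommRing A] {k : ℕ} (y : Fin k → A) (x z : A)
    (hz : 8 * z ^ 2 = (∏ i, (1 - y i ^ 2)) ^ 2 * (1 + (2 * x - 1) * (4 * x ^ 2 - 6 * x + 1))) :
    (Fin.cons (2 * x - 1) (Fin.snoc y z : Fin (k + 1) → A) : Fin (k + 2) → A) ∈
      unimodRows (k + 2) A := by
  set v : Fin (k + 2) → A := Fin.cons (2 * x - 1) (Fin.snoc y z : Fin (k + 1) → A) with hv
  have h0 : v 0 = 2 * x - 1 := rfl
  have h1 : ∀ j : Fin k, v j.castSucc.succ = y j := by
    intro j
    rw [hv, Fin.cons_succ, Fin.snoc_castSucc]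
  have h2 : v (Fin.last (k + 1)) = z := by
    rw [hv, ← Fin.succ_last, Fin.cons_succ, Fin.snoc_last]
  have hI : Ideal.span (Set.range v) = ⊤ := by
    by_contra hne
    have hnt : Nontrivial (A ⧸ Ideal.span (Set.range v)) := Ideal.Quotient.nontrivial_iff.2 hne
    let π := Ideal.Quotient.mk (Ideal.span (Set.range v))
    have hπ : ∀ l, π (v l) = 0 := fun l =>
      Ideal.Quotient.eq_zero_iff_mem.2 (Ideal.subset_span ⟨l, rfl⟩)
    have hx := hπ 0
    have hy := fun j : Fin k => hπ j.castSucc.succ
    have hzz := hπ (Fin.last (k + 1))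
    rw [h0] at hx
    rw [h2] at hzz
    have hP : π (∏ i, (1 - y i ^ 2)) = 1 := by
      rw [map_prod]
      refine Finset.prod_eq_one fun j _ => ?_
      have := hy j
      rw [h1] at this
      rw [map_sub, map_pow, this, map_one]
      simp
    have h3 := congrArg π hz
    rw [map_mul, map_mul, map_pow, map_pow, hP, hzz, map_add, map_mul, hx, map_one] at h3
    simp at h3
  have h4 : (1 : A) ∈ Ideal.span (Set.range v) := by rw [hI]; trivial
  obtain ⟨c, hc⟩ := (Ideal.mem_span_range_iff_exists_fun).1 h4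
  exact ⟨c, by rw [← hc]; exact Finset.sum_congr rfl fun i _ => mul_comm _ _⟩

theorem unimodRows_map {n : ℕ} {A B : Type*} [CommRing A] [CommRing B] (φ : A →+* B)
    (v : Fin n → A) (hv : v ∈ unimodRows n A) : (fun i => φ (v i)) ∈ unimodRows n B := by
  obtain ⟨b, hb⟩ := hv
  exact ⟨fun i => φ (b i), by
    have := congrArg φ hb
    simpa [map_sum, map_mul] using this⟩

end bezout

section example_ring

variable {R : Type*} [CommRing R] {d : ℕ} (y : Fin d → R) (r : ℕ)

/-- The polynomial ring `R[x_0, …, x_r]`. -/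
abbrev BR (R : Type*) [CommRing R] (r : ℕ) : Type _ := MvPolynomial (Fin (r + 1)) R

/-- The elements `y_1, …, y_d, x_0, …, x_{r-1}`. -/
noncomputable def yy : Fin (d + r) → BR R r :=
  Fin.addCases (fun i => C (y i)) (fun j => X j.castSucc)

/-- The variable `s = x_r`. -/
noncomputable def ss (R : Type*) [CommRing R] (r : ℕ) : BR R r := X (Fin.last r)

/-- `z = ∏ (1 - y_i ^ 2) (1 - s ^ 2) s`. -/
noncomputable def zz : BR R r := (∏ i, (1 - yy y r i ^ 2)) * (1 - ss R r ^ 2) * ss R r

/-- The generators `x_0, …, x_{r-1}, s ^ 2, z`. -/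
def gens : Set (BR R r) :=
  Set.range (fun j : Fin r => (X j.castSucc : BR R r)) ∪ {ss R r ^ 2, zz y r}

/-- The subalgebra generated by `gens`. -/
noncomputable def AA : Subalgebra R (BR R r) := Algebra.adjoin R (gens y r)

theorem yy_mem (i : Fin (d + r)) : yy y r i ∈ AA y r := by
  unfold yy
  refine Fin.addCases (fun i => ?_) (fun j => ?_) i
  · rw [Fin.addCases_left]
    exact Subalgebra.algebraMap_mem (AA y r) (y i)
  · rw [Fin.addCases_right]
    exact Algebra.subset_adjoin (Or.inl ⟨j, rfl⟩)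

theorem ss_mem : ss R r ^ 2 ∈ AA y r := Algebra.subset_adjoin (Or.inr (Or.inl rfl))

theorem zz_mem : zz y r ∈ AA y r := Algebra.subset_adjoin (Or.inr (Or.inr rfl))

/-- The row in `AA`. -/
noncomputable def vA : Fin (d + r + 2) → AA y r :=
  Fin.cons (2 * ⟨ss R r ^ 2, ss_mem y r⟩ - 1)
    (Fin.snoc (fun i => ⟨yy y r i, yy_mem y r i⟩) ⟨zz y r, zz_mem y r⟩ : Fin (d + r + 1) → AA y r)

theorem vA_unimod : vA y r ∈ unimodRows (d + r + 2) (AA y r) := by
  refine bez _ _ _ ?_
  apply Subtype.ext
  have h8 : ((8 : AA y r) : BR R r) = 8 := rfl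
  have h2 : ((2 : AA y r) : BR R r) = 2 := rfl
  have h4 : ((4 : AA y r) : BR R r) = 4 := rfl
  have h6 : ((6 : AA y r) : BR R r) = 6 := rfl
  have hp : ((∏ i, (1 - (⟨yy y r i, yy_mem y r i⟩ : AA y r) ^ 2) : AA y r) : BR R r) =
      ∏ i, (1 - yy y r i ^ 2) := by
    have := map_prod (AA y r).val
      (fun i => (1 - (⟨yy y r i, yy_mem y r i⟩ : AA y r) ^ 2 : AA y r)) Finset.univ
    rw [Subalgebra.coe_val] at this
    rw [this]
    rfl
  simp only [Subalgebra.coe_mul, Subalgebra.coe_pow, Subalgebra.coe_add, Subalgebra.coe_sub,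
    Subalgebra.coe_one, hp, h8, h2, h4, h6]
  unfold zz
  ring

/-- The identification `R[x_0, …, x_r] → ℝ[y_1, …, y_d, x_0, …, x_r]`. -/
noncomputable def psi (τ : R →+* MvPolynomial (Fin d) ℝ) (r : ℕ) :
    BR R r →+* MvPolynomial (Fin (d + r + 1)) ℝ :=
  eval₂Hom (((rename (Fin.castAdd (r + 1)) :
    MvPolynomial (Fin d) ℝ →ₐ[ℝ] MvPolynomial (Fin (d + (r + 1))) ℝ) :
    MvPolynomial (Fin d) ℝ →+* MvPolynomial (Fin (d + r + 1)) ℝ).comp τ)
    (fun j => (X (Fin.natAdd d j) : MvPolynomial (Fin (d + (r + 1))) ℝ))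

variable (τ : R →+* MvPolynomial (Fin d) ℝ)

theorem psi_C (f : R) : psi τ r (C f) =
    (rename (Fin.castAdd (r + 1)) (τ f) : MvPolynomial (Fin (d + (r + 1))) ℝ) := by
  unfold psi
  rw [eval₂Hom_C]
  rfl

theorem psi_X (j : Fin (r + 1)) : psi τ r (X j) =
    (X (Fin.natAdd d j) : MvPolynomial (Fin (d + (r + 1))) ℝ) := by
  unfold psi
  rw [eval₂Hom_X']

theorem psi_yy (hτ : ∀ i, τ (y i) = X i) (i : Fin (d + r)) : psi τ r (yy y r i) = X i.castSucc := by
  unfold yy
  refine Fin.addCases (fun i => ?_) (fun j => ?_) i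
  · rw [Fin.addCases_left, psi_C, hτ, rename_X]
    rfl
  · rw [Fin.addCases_right, psi_X]
    rfl

theorem psi_ss : psi τ r (ss R r) = X (Fin.last (d + r)) := by
  unfold ss
  rw [psi_X]
  rfl

theorem psi_zz (hτ : ∀ i, τ (y i) = X i) : psi τ r (zz y r) = qq (d + r) * X (Fin.last (d + r)) := by
  unfold zz qq pp
  simp only [map_mul, map_sub, map_pow, map_one, map_prod, psi_yy y r τ hτ, psi_ss]

theorem psi_vA (hτ : ∀ i, τ (y i) = X i) (l : Fin (d + r + 2)) : psi τ r (vA y r l : BR R r) = row (d + r) l := by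
  unfold vA row
  refine Fin.cases ?_ (fun i => ?_) l
  · rw [Fin.cons_zero, Fin.cons_zero]
    change psi τ r (2 * ss R r ^ 2 - 1) = _
    rw [map_sub, map_mul, map_pow, psi_ss, map_one, map_ofNat]
  · rw [Fin.cons_succ, Fin.cons_succ]
    refine Fin.lastCases ?_ (fun j => ?_) i
    · rw [Fin.snoc_last, Fin.snoc_last]
      exact psi_zz y r τ hτ
    · rw [Fin.snoc_castSucc, Fin.snoc_castSucc]
      exact psi_yy y r τ hτ j

theorem folded_psi (hτ : ∀ i, τ (y i) = X i) (a : BR R r) (ha : a ∈ AA y r) : Folded (psi τ r a) := by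
  unfold AA at ha
  induction ha using Algebra.adjoin_induction with
  | mem x hx =>
    intro z hz
    rcases hx with ⟨j, rfl⟩ | hx | hx
    · beta_reduce
      rw [psi_X, eval_X, eval_X]
      unfold refl
      rw [if_neg]
      intro h
      have := congrArg Fin.val h
      have hj := j.2
      simp at this
      omega
    · rw [hx, map_pow, psi_ss, map_pow, map_pow, eval_X, eval_X]
      simp [refl]
    · rw [Set.mem_singleton_iff.1 hx, psi_zz y r τ hτ, map_mul, map_mul]
      have h0 : eval z (qq (d + r)) = 0 := by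
        obtain ⟨i, hi⟩ := hz
        have hi2 : 1 - z i ^ 2 = 0 := by
          rcases hi with hi | hi <;> rw [hi] <;> norm_num
        unfold qq pp
        rw [map_mul, map_prod]
        revert hi2
        refine Fin.lastCases ?_ (fun j => ?_) i
        · intro hi2
          simp [hi2]
        · intro hi2
          rw [Finset.prod_eq_zero (Finset.mem_univ j) (by simp [hi2]), zero_mul]
      have h1 : eval (refl z) (qq (d + r)) = eval z (qq (d + r)) := by
        unfold qq pp
        rw [map_mul, map_prod, map_mul, map_prod]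
        congr 1
        · refine Finset.prod_congr rfl fun j _ => ?_
          have hl : (j.castSucc : Fin (d + r + 1)) ≠ Fin.last (d + r) :=
            (Fin.castSucc_lt_last j).ne
          simp [refl, hl]
        · simp [refl]
      rw [h1, h0]
      simp
  | algebraMap f =>
    intro z _
    rw [algebraMap_eq, psi_C, eval_rename, eval_rename]
    congr 2
    funext i
    simp only [Function.comp, refl]
    rw [if_neg]
    intro h
    have := congrArg Fin.val h
    have hj := i.2
    simp at this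
    omega
  | add x y _ _ hx hy =>
    intro z hz
    rw [map_add, map_add, map_add, hx z hz, hy z hz]
  | mul x y _ _ hx hy =>
    intro z hz
    rw [map_mul, map_mul, map_mul, hx z hz, hy z hz]

theorem gens_finite : (gens y r).Finite :=
  (Set.finite_range _).union (by simp)

variable {m : ℕ}

/-- The degree zero example: the `R`-subalgebra of `R[X_0^{±1}, …, X_{m-1}^{±1}]` generated by
`x_j = X_{j+1} / X_0` (`j < r`), `s ^ 2` and `z = ∏ (1 - y_i ^ 2) ∏ (1 - x_j ^ 2) (1 - s ^ 2) s`,
where `s = X_{r+1} / X_0`. -/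
noncomputable def LA (hm : r + 2 ≤ m) : Subalgebra R (Laurent R m) :=
  (AA y r).map (iota R hm)

theorem LA_eq (hm : r + 2 ≤ m) : LA y r hm = Algebra.adjoin R (iota R hm '' gens y r) := by
  unfold LA AA
  rw [AlgHom.map_adjoin]

theorem LA_fg (hm : r + 2 ≤ m) : (LA y r hm).FG := by
  rw [LA_eq]
  exact ⟨((gens_finite y r).image (iota R hm)).toFinset, by rw [Set.Finite.coe_toFinset]⟩

theorem homog_iota (hm : r + 2 ≤ m) (p : BR R r) : Homog 0 (iota R hm p) := by
  induction p using MvPolynomial.induction_on with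
  | C a =>
    have h : iota R hm (C a) = AddMonoidAlgebra.single 0 a := by
      rw [← algebraMap_eq, AlgHom.commutes]
      rfl
    rw [h]
    have := homog_single (m := m) 0 a
    simpa using this
  | add p q hp hq =>
    intro a ha
    rw [map_add, AddMonoidAlgebra.coeff_add, Finsupp.add_apply] at ha
    by_cases h : (iota R hm p).coeff a = 0
    · rw [h, zero_add] at ha
      exact hq a ha
    · exact hp a h
  | mul_X p j hp =>
    rw [map_mul, iota_X]
    exact hp.mul (homog_frac R hm j)

theorem LA_homog (hm : r + 2 ≤ m) : ∀ f ∈ LA y r hm, Homog 0 f := by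
  rintro _ ⟨p, _, rfl⟩
  exact homog_iota r hm p

theorem LA_graded (hm : r + 2 ≤ m) : IsGradedSub (LA y r hm) := by
  rw [LA_eq]
  refine isGradedSub_adjoin _ ?_
  rintro _ ⟨p, _, rfl⟩
  exact ⟨0, homog_iota r hm p⟩

/-- The isomorphism `AA ≃ LA`. -/
noncomputable def eLA (hm : r + 2 ≤ m) : AA y r ≃ₐ[R] LA y r hm :=
  Subalgebra.equivMapOfInjective (AA y r) (iota R hm) (iota_injective R hm)

/-- The row in `LA`. -/
noncomputable def vL (hm : r + 2 ≤ m) : Fin (d + r + 2) → LA y r hm := fun l => eLA y r hm (vA y r l)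

theorem vL_unimod (hm : r + 2 ≤ m) : vL y r hm ∈ unimodRows (d + r + 2) (LA y r hm) := by
  have h := unimodRows_map ((eLA y r hm).toAlgHom.toRingHom) (vA y r) (vA_unimod y r)
  exact h

theorem vL_not_elem (hτ : ∀ i, τ (y i) = X i) (hm : r + 2 ≤ m) : vL y r hm ∉ elemRows (d + r + 2) (LA y r hm) := by
  refine main_abs (e := d + r) (((psi τ r).comp (AA y r).val.toRingHom).comp
    ((eLA y r hm).symm : LA y r hm →+* AA y r)) ?_ _ ?_
  · intro a
    exact folded_psi y r τ hτ _ ((eLA y r hm).symm a).2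
  · intro l
    simp only [vL, RingHom.comp_apply, RingHom.coe_coe, AlgEquiv.symm_apply_apply]
    exact psi_vA y r τ hτ l

/-! ### The example with elements in all degrees -/

/-- The exponent vector of `X_0`. -/
def dl (hm : r + 2 ≤ m) : Fin m → ℤ := Pi.single ⟨0, by omega⟩ 1

/-- The degree-preserving example `LA[X_0, X_0⁻¹]`. -/
noncomputable def LB (hm : r + 2 ≤ m) : Subalgebra R (Laurent R m) :=
  Algebra.adjoin R (iota R hm '' gens y r ∪
    {AddMonoidAlgebra.single (dl r hm) 1, AddMonoidAlgebra.single (-dl r hm) 1})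

theorem LB_fg (hm : r + 2 ≤ m) : (LB y r hm).FG := by
  unfold LB
  exact ⟨(((gens_finite y r).image (iota R hm)).union
    (Set.toFinite {AddMonoidAlgebra.single (dl r hm) 1,
      AddMonoidAlgebra.single (-dl r hm) 1})).toFinset, by rw [Set.Finite.coe_toFinset]⟩

theorem LB_graded (hm : r + 2 ≤ m) : IsGradedSub (LB y r hm) := by
  refine isGradedSub_adjoin _ ?_
  rintro x (⟨p, _, rfl⟩ | hx | hx)
  · exact ⟨0, homog_iota r hm p⟩
  · rw [hx]
    exact ⟨_, homog_single _ _⟩
  · rw [Set.mem_singleton_iff.1 hx]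
    exact ⟨_, homog_single _ _⟩

theorem LA_le_LB (hm : r + 2 ≤ m) : LA y r hm ≤ LB y r hm := by
  rw [LA_eq]
  exact Algebra.adjoin_mono Set.subset_union_left

/-- The retraction of exponents `a ↦ a - deg(a) δ_0`. -/
def retr (hm : r + 2 ≤ m) : (Fin m → ℤ) →+ (Fin m → ℤ) where
  toFun a := a - (∑ i, a i) • dl r hm
  map_zero' := by simp
  map_add' a b := by
    simp only [Pi.add_apply, Finset.sum_add_distrib, add_smul]
    abel

/-- The retraction `X_0 ↦ 1`, `X_j ↦ X_j / X_0`. -/
noncomputable def rho (R : Type*) [CommRing R] (r : ℕ) {m : ℕ} (hm : r + 2 ≤ m) :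
    Laurent R m →ₐ[R] Laurent R m :=
  AddMonoidAlgebra.mapDomainAlgHom R R (retr r hm)

theorem rho_single (hm : r + 2 ≤ m) (a : Fin m → ℤ) (c : R) :
    rho R r hm (AddMonoidAlgebra.single a c) = AddMonoidAlgebra.single (retr r hm a) c :=
  AddMonoidAlgebra.mapDomain_single

theorem rho_iota (hm : r + 2 ≤ m) (p : BR R r) : rho R r hm (iota R hm p) = iota R hm p := by
  have h : (rho R r hm).comp (iota R hm) = iota R hm := by
    apply MvPolynomial.algHom_ext
    intro j
    rw [AlgHom.comp_apply, iota_X]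
    unfold frac
    rw [rho_single]
    congr 1
    have h0 : ∑ i, expo hm j i = 0 := by
      simp [expo, Finset.sum_sub_distrib]
    change expo hm j - (∑ i, expo hm j i) • dl r hm = _
    rw [h0]
    simp
  exact congrArg (fun f => f p) h

theorem rho_LB (hm : r + 2 ≤ m) : ∀ f ∈ LB y r hm, rho R r hm f ∈ LA y r hm := by
  have h : (LB y r hm).map (rho R r hm) ≤ LA y r hm := by
    unfold LB
    rw [AlgHom.map_adjoin, Algebra.adjoin_le_iff]
    rintro _ ⟨x, hx, rfl⟩
    rcases hx with ⟨p, hp, rfl⟩ | hx | hx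
    · rw [rho_iota]
      rw [LA_eq]
      exact Algebra.subset_adjoin ⟨p, hp, rfl⟩
    · rw [hx, rho_single]
      have h1 : retr r hm (dl r hm) = 0 := by
        change dl r hm - (∑ i, dl r hm i) • dl r hm = 0
        simp [dl]
      rw [h1]
      exact one_mem _
    · rw [Set.mem_singleton_iff.1 hx, rho_single]
      have h1 : retr r hm (-dl r hm) = 0 := by
        change -dl r hm - (∑ i, (-dl r hm) i) • dl r hm = 0
        simp [dl]
      rw [h1]
      exact one_mem _
  intro f hf
  exact h ⟨f, hf, rfl⟩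

/-- The retraction `LB → LA`. -/
noncomputable def rhoB (hm : r + 2 ≤ m) : LB y r hm →ₐ[R] LA y r hm :=
  ((rho R r hm).comp (LB y r hm).val).codRestrict (LA y r hm) (fun x => rho_LB y r hm x x.2)

/-- The row in `LB`. -/
noncomputable def vB (hm : r + 2 ≤ m) : Fin (d + r + 2) → LB y r hm :=
  fun l => Subalgebra.inclusion (LA_le_LB y r hm) (vL y r hm l)

theorem vB_unimod (hm : r + 2 ≤ m) : vB y r hm ∈ unimodRows (d + r + 2) (LB y r hm) := by
  have h := unimodRows_map (Subalgebra.inclusion (LA_le_LB y r hm)).toRingHom (vL y r hm)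
    (vL_unimod y r hm)
  exact h

theorem vB_not_elem (hτ : ∀ i, τ (y i) = X i) (hm : r + 2 ≤ m) : vB y r hm ∉ elemRows (d + r + 2) (LB y r hm) := by
  intro h
  have h1 := elemRows_map (rhoB y r hm).toRingHom _ h
  have h2 : (fun i => (rhoB y r hm).toRingHom (vB y r hm i)) = vL y r hm := by
    funext i
    apply Subtype.ext
    change rho R r hm (vL y r hm i : Laurent R m) = _
    change rho R r hm (iota R hm (vA y r i : BR R r)) = iota R hm (vA y r i : BR R r)
    exact rho_iota r hm _
  rw [h2] at h1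
  exact vL_not_elem y r τ hτ hm h1

end example_ring

end Pool.Agent.H30.GU
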